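import Pool.Agent.Lib.SmL.V.Inst
import Pool.Agent.Lib.SmL.Fld.Summ
import Pool.Agent.Lib.SmL.Ch.StdCh
import Pool.Agent.Lib.SmL.Ch.LagOf
import Pool.Agent.Lib.SmL.Asm.Abs

/-!
# SMITH-L: `AOk` for cyclic base change over a global function field

`exists_aok`: for the system `sysV` of a module `A` over a global function field with the standard data,
all hypotheses of the counting half (`AOk`) hold, if an element of the Galois group acts as `-1` on
`A[l]` and the Galois group spans `End A[l]`.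
-/

set_option autoImplicit false

open Finset

namespace Pool.Agent.SmL.Fnl

open Pool.Agent.BSDFF Pool.Agent.Lib.SmD Pool.Agent.GBU Pool.Agent.SmL.Ar Pool.Agent.SmL.C
  Pool.Agent.SmL.Fld Pool.Agent.SmL.Ch Pool.Agent.SmL.V Pool.Agent.SmL

section abs

variable {l : ℕ} {G A U Pl : Type*} [Group G] [AddCommGroup A] [DistribMulAction G A]
  [AddCommGroup U] [DistribMulAction G U] {en : ℕ → A → A → U} {th : ZMod l →+ U}

theorem _root_.Pool.Agent.SmL.V.ModOk.mono {B : Bs G Pl} {T T' : Finset Pl}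
    (h : ModOk l A U B T) (hT : T ⊆ T') : ModOk l A U B T' where
  div := h.div
  fin1 := h.fin1
  act_fin := h.act_fin
  good_triv := fun v hv => h.good_triv v fun h1 => hv (hT h1)
  fin_inv := h.fin_inv
  sg_U := h.sg_U
  ph_U := h.ph_U

/-- The dual pair `A[l]`, `A[l]` satisfies `Ok`. -/
theorem dpA_ok {B : Bs G Pl} {T : Finset Pl} (hM : ModOk l A U B T) (hf : Form l G en)
    (ht : ThOk l G th) : (dpA hf ht).Ok B where
  fin := hM.fin1
  fin' := hM.fin1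
  ker := by
    obtain ⟨N, hN, h⟩ := hM.act_fin 1
    refine ⟨N, hN, fun s hs => LinearEquiv.ext fun x => inc1_inj ?_⟩
    change inc1 l A (ac1 l G A s x) = inc1 l A x
    rw [inc1_ac]
    exact h s hs _ (by rw [pow_one]; exact inc1_l x)
  ker' := by
    obtain ⟨N, hN, h⟩ := hM.act_fin 1
    refine ⟨N, hN, fun s hs => LinearEquiv.ext fun x => inc1_inj ?_⟩
    change inc1 l A (ac1 l G A s x) = inc1 l A x
    rw [inc1_ac]
    exact h s hs _ (by rw [pow_one]; exact inc1_l x)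
  inv := fun s x y => e1_inv hf ht s x y
  nd := fun x hx => e1_nondeg hf ht x hx
  nd' := fun y hy => by
    refine e1_nondeg hf ht y fun x => ?_
    rw [e1_symm hf ht]
    have h1 : e1 hf ht x y = 0 := hy x
    rw [h1, mul_zero]

end abs

variable {k K Ω : Type} [Field k] [Finite k] [Field K] [Algebra k K] [Algebra (RatFunc k) K]
  [IsScalarTower k (RatFunc k) K] [FiniteDimensional (RatFunc k) K]
  [Algebra.IsSeparable (RatFunc k) K] [Field Ω] [Algebra K Ω] [IsSepClosure K Ω]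
  {l : ℕ} {ζ : Ω} {N0 : Subgroup (Ω ≃ₐ[K] Ω)} {w : Place k K → ValuationSubring Ω}
  {sg ph : Place k K → Ω ≃ₐ[K] Ω}
  {A U : Type} [AddCommGroup A] [DistribMulAction (Ω ≃ₐ[K] Ω) A]
  [AddCommGroup U] [DistribMulAction (Ω ≃ₐ[K] Ω) U] {en : ℕ → A → A → U} {th : ZMod l →+ U}

omit [Finite k] [Algebra (RatFunc k) K] [IsScalarTower k (RatFunc k) K]
  [FiniteDimensional (RatFunc k) K] [Algebra.IsSeparable (RatFunc k) K] in
/-- The family is closed under larger normal subgroups. -/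
theorem up_NNt {N N' : Subgroup (Ω ≃ₐ[K] Ω)} (h : N ∈ NNt N0) (h' : N'.Normal) (hle : N ≤ N') :
    N' ∈ NNt N0 := NNp.mem_of_le h h' hle

/-- The facts for the trivial module. -/
theorem trP_std (h2 : (2 : k) ≠ 0) (hl : l.Prime) (hl2 : l ≠ 2) (hζ : IsPrimitiveRoot ζ l)
    (hζK : ∃ z : K, algebraMap K Ω z = ζ) (h0 : TameN N0) (hS : Std l ζ (NNt N0) w sg ph)
    (hCh : (bK (NNt N0) w sg ph).Cheb1) :
    (trP l (Ω ≃ₐ[K] Ω)).Gd (bK (NNt N0) w sg ph) := by
  have hB := std_ok hl hl2 hζ hζK hS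
  let _ : MulAction (Ω ≃ₐ[K] Ω) Unit :=
    { smul := fun _ x => x
      one_smul := fun _ => rfl
      mul_smul := fun _ _ _ => rfl }
  have : MulAction.IsPretransitive (Ω ≃ₐ[K] Ω) Unit := ⟨fun x y => ⟨1, Subsingleton.elim _ _⟩⟩
  exact trP_gd hB (perm_gd h2 hl hl2 hζ hζK h0 hS hCh (X := Unit)
    ⟨⊤, hB.top_mem, fun _ _ _ => rfl⟩).1

/-- **`AOk` for cyclic base change.** -/
theorem exists_aok (h2 : (2 : k) ≠ 0) (hk : ∀ x : K, IsIntegral k x → ∃ c : k, algebraMap k K c = x)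
    (hl : l.Prime) (hl2 : l ≠ 2) (hζ : IsPrimitiveRoot ζ l)
    (hζK : ∃ z : K, algebraMap K Ω z = ζ) (h0 : TameN N0) (hS : Std l ζ (NNt N0) w sg ph)
    (hf : Form l (Ω ≃ₐ[K] Ω) en) (ht : ThOk l (Ω ≃ₐ[K] Ω) th) {T1 : Finset (Place k K)}
    (hM : ModOk l A U (bK (NNt N0) w sg ph) T1) {τ : Ω ≃ₐ[K] Ω}
    (hτ : ∀ x, ac1 l (Ω ≃ₐ[K] Ω) A τ x = -x)
    (hsp : Submodule.span (ZMod l) (Set.range fun g : Ω ≃ₐ[K] Ω =>
      (ac1 l (Ω ≃ₐ[K] Ω) A g : L1 l A →ₗ[ZMod l] L1 l A)) = ⊤)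
    {fr : Ω ≃ₐ[K] Ω} (hfr : IsFrC k fr) :
    ∃ T0 : Finset (Place k K), ∀ TS : Finset (Place k K), T0 ⊆ TS →
      ∃ T2 : Finset (Place k K), ∀ T : Finset (Place k K), T2 ⊆ T → ∃ a C m0 : ℕ,
      AOk (sysV (bK (NNt N0) w sg ph) TS hf ht) (T : Set (Place k K)) Place.degree (Nat.card k)
        (GeoK k K Ω) fr a C m0 := by
  classical
  have hCh := cheb1_std hk hS
  have hB := std_ok hl hl2 hζ hζK hS
  have hR := std_rec h2 hl hζ hζK hS
  have hP := dpA_ok hM hf ht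
  obtain ⟨hG, hsha⟩ := all_gd h2 hl hl2 hζ hζK h0 hS hCh hP (τ := τ) ⟨hτ, hτ⟩
  have hGt := trP_std h2 hl hl2 hζ hζK h0 hS hCh
  -- correction
  obtain ⟨T3, h3⟩ := exists_T (lnkV (hf := hf) (ht := ht) hB hM hG) hG hsha
  refine ⟨T1 ∪ T3, fun TS hTS => ?_⟩
  have hM' := hM.mono (Finset.union_subset_left hTS)
  have hC := (h3 TS (Finset.union_subset_right hTS)).2.2.2
  have hok := okV (hf := hf) (ht := ht) hB hM' hR hG hC
  have hL := lnkV (hf := hf) (ht := ht) hB hM' hG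
  set S := sysV (bK (NNt N0) w sg ph) TS hf ht with hSdef
  obtain ⟨T4, h4⟩ := exists_lag hL hR hCh hG hsha hGt hok.good_fin
  refine ⟨T4, fun T hT => ?_⟩
  obtain ⟨hV, hF⟩ := h4 T hT
  obtain ⟨a, C, hcheb⟩ := chebT_std (S := S) h0.normal h0.isOpen hS rfl rfl rfl T.finite_toSet hfr
  have hfi : ∀ N ∈ S.NN, N.FiniteIndex := hS.fi
  obtain ⟨N, hN, hNa⟩ := hP.ker
  have hNn := hS.fam.normal N hN
  have hNi := hS.fi N hN
  refine ⟨a, C, N.index, ?_⟩
  exact
    { ok := hok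
      fi := hfi
      up := fun N hN N' h' hle => up_NNt hN h' hle
      lagV := hV
      lagF := hF
      nofix := nofix_of (S := S) hl2 hl hτ
      span := span_of (S := S) hl2 hl hτ hsp
      xok := xokL hk T.finite_toSet
      geo := geoOk_std (S := S) hS rfl rfl hfr fun c hc h0 => znd_of_neg (S := S) hl2 hl hτ hc.2 h0
      cheb := hcheb
      m0_pos := Nat.one_le_iff_ne_zero.2 hNi.index_ne_zero
      m0_mem := hNa _ (Subgroup.pow_index_mem N fr) }

end Pool.Agent.SmL.Fnl
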